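import Pool.Agent.Helper66_DF.StmtsE
import Pool.Agent.Helper96_PP.S1g

/-!
# Squad DF, module S1GE: the case of a simple chief factor, arbitrary outer part, with control of
the defect groups
-/

open scoped BigOperators

noncomputable section

namespace Pool.Agent.DF.H86

open Pool.Agent.Helper51_AWC Pool.Agent.Helper79_WRA Pool.Agent.PP Pool.Agent.DF

/-- S1GE -/
theorem s1gE (hS1n : S1nEStmt) (hDbln : DblnEStmt) (hCov : CovEStmt) (hAdd : AddStmt)
    (hFr : FrStmt) (hPs3 : Ps3Stmt) (hSum : SumStmt) : S1EStmt := by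
  intro ℓ _ 𝒟 h𝒟 F _ hF G _ _ N hN hO hNA hg hlt e0 he0 hp0 hd0
  apply hAdd ℓ F hF G N hN e0 he0
  intro e he hee
  have hd : DfE ℓ 𝒟 e N := hd0.le hF he0.1 he.1.1 hee
  have hp : Pos ℓ e N := H46.pos_mono he.1 (by rw [H46.mulF_comm he.1.1, hee]) hp0
  obtain ⟨b, hb0, hb, hbe⟩ := H46.exists_blk he.2.1 N
  obtain ⟨f1, f2, f3, f4⟩ := hFr ℓ F hF G N N hN hN le_rfl e he hp b hb0 hb hbe (stabF b)
    (fun g => Iff.rfl)
  rw [f4]
  set T := stabF b with hT
  have hNT : N ≤ T := by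
    intro g hgN x
    by_cases hx : x ∈ N
    · exact hb.1.1 ⟨x, hx⟩ ⟨g, hgN⟩
    · have hx' : g * x * g⁻¹ ∉ N := by
        intro h
        apply hx
        have := hN.conj_mem _ h g⁻¹
        have e2 : g⁻¹ * (g * x * g⁻¹) * g⁻¹⁻¹ = x := by group
        rwa [e2] at this
      rw [hb0 _ hx, hb0 _ hx']
  let M : Subgroup T := N.subgroupOf T
  have hM : M.Normal := hN.subgroupOf T
  let ι : M ≃* N := Subgroup.subgroupOfEquivOfLe hNT
  let bT : T → F := fun t => b t
  have hbTM : IsBlk (fun t : M => bT t) := H18.blk_equiv ι hb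
  have hbT0 : ∀ x, x ∉ M → bT x = 0 := fun x hx => hb0 x (fun h => hx h)
  have hbTc : IsCl bT := fun x y => y.2 x
  have hsb : SBlk M bT := ⟨hbT0, hbTc, hbTM⟩
  let eT : T → F := fun t => mulF e b t
  have hbb : mulF b b = b := by
    have h1 := H75.mulF_res N b hb0
    funext x
    by_cases hx : x ∈ N
    · have h2 := congrFun h1 ⟨x, hx⟩
      have h3 : mulF b b x = mulF (fun t : N => b t) (fun t : N => b t) ⟨x, hx⟩ := h2
      rw [h3, hb.1.2]
    · rw [hb0 x hx]
      exact H75.mulF_supp N hb0 hb0 x hx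
  have hmul : mulF eT bT = eT := by
    have h1 := H75.mulF_res T (a := mulF e b) b f1
    have h2 : mulF (mulF e b) b = mulF e b := by
      apply ma_injective
      rw [ma_mul, ma_mul, mul_assoc, ← ma_mul, hbb]
    rw [h2] at h1
    exact h1.symm
  have heT : eT ≠ 0 := by
    intro h0
    apply hbe
    funext x
    by_cases hx : x ∈ T
    · exact congrFun h0 ⟨x, hx⟩
    · exact f1 x hx
  -- control of the defect groups
  have hbN : ∀ n ∈ N, ∀ t, b (n * t * n⁻¹) = b t := fun n hn t => hNT hn t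
  have hdT : DfE ℓ 𝒟 eT M := by
    refine (DfE.factor hF (a := e) (b := b) (fun n _ t => he.1.1 t n) hbN hd).sub h𝒟 (N' := M) ?_
    rw [Subgroup.subgroupOf_map_subtype]
    exact inf_le_left
  have hdb : DfE ℓ 𝒟 bT M := fun Q hQ hq hx =>
    hdT Q hQ hq (hCov ℓ F hF T M hM bT hsb eT f2 heT hmul Q hQ hq hx)
  obtain ⟨τ, hτ⟩ := H59.exists_lift ℓ F hF
  have hmuM : mu M ≤ mu N := by
    have h1 : (Subgroup.center G).subgroupOf T ≤ Subgroup.center T := by
      intro x hx
      rw [Subgroup.mem_center_iff]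
      intro y
      exact Subtype.ext (Subgroup.mem_center_iff.1 (Subgroup.mem_subgroupOf.1 hx) y)
    have h2 : ((Subgroup.center G).subgroupOf T).relIndex M = (Subgroup.center G).relIndex N :=
      Subgroup.relIndex_subgroupOf hNT
    unfold mu
    rw [← h2]
    apply Nat.le_of_dvd
    · exact Nat.pos_of_ne_zero Subgroup.index_ne_zero_of_finite
    · exact Subgroup.relIndex_dvd_of_le_left _ h1
  have hall : DAll τ ℓ M bT := by
    refine hDbln ℓ 𝒟 h𝒟 F hF τ hτ T M hM bT hsb ?_ hdb ?_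
    · intro hdz
      apply heT
      refine (hPs3 ℓ F hF T M hM (fun t : M => bT t) hbTM ?_ eT f2 ?_).2 hdz f3
      · rw [H46.ext0_restr hbT0]
        rw [eq_top_iff]
        intro g _ x
        exact hbTc x g
      · rw [H46.ext0_restr hbT0]
        exact hmul
    · intro H₁ _ _ Q hQ hiso hmu hnil hemb
      obtain ⟨ε⟩ := hiso
      obtain ⟨i, hi⟩ := hemb
      obtain ⟨k1, k2⟩ := H96.simple_transfer hNA (ε.trans ι) (hmu.trans hmuM)
      refine hS1n ℓ 𝒟 h𝒟 F hF H₁ Q hQ (H96.opCore_bot_of_equiv (ε.trans ι) hO) k1 hnil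
        ((hg.subgroupOf T le_rfl).of_prod i hi ε.toMonoidHom ε.injective) ?_
      rw [k2]
      exact hlt
  rw [hSum ℓ F hF τ hτ T M hM bT hsb hall eT f2 hmul, mul_zero]

end Pool.Agent.DF.H86
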